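import Pool.Agent.MP_e9cdae_an.Main

/-! Uniqueness of Hardy-Morrey extremals up to similarities fails (n = 2, p = 4). -/

open Pool.Agent.MP_e9cdae_an

theorem Pool.Agent.Results.MP_e9cdae_an.NonUnique.result :
    ∃ Ω : Set (EuclideanSpace ℝ (Fin 2)),
      IsOpen Ω ∧ IsConnected Ω ∧ Bornology.IsBounded Ω ∧ Ω ≠ Set.univ ∧
      ∃ u v : EuclideanSpace ℝ (Fin 2) → ℝ, IsExtremal 4 Ω u ∧ IsExtremal 4 Ω v ∧
        ∀ (c r : ℝ)
          (Q : LinearIsometryEquiv (RingHom.id ℝ) (EuclideanSpace ℝ (Fin 2))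
            (EuclideanSpace ℝ (Fin 2)))
          (b : EuclideanSpace ℝ (Fin 2)), c ≠ 0 → 0 < r → (fun x => r • Q x + b) '' Ω = Ω →
          v ≠ fun x => c * u (r • Q x + b) :=
  counterexample
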